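import Mathlib
import Pool.Agent.N228.AZ.Stm

/-! # Project AZ: the statements ESC and WIN -/

set_option autoImplicit false
open Metric MeasureTheory Set Filter Topology

namespace Pool.Agent.N42.AZ

open Pool.Agent.W747.MB
open Pool.Agent.TH363.CD

/-- Bounds on the Multibrot set (after `alv'`). -/
theorem alv2 {n : ℕ} (hn : 10 ^ 6 ≤ n) {c : ℂ} (hcM : c ∈ N62a1eb23.multibrotSet n)
    (hY1 : 1 / 3 ≤ Y n c) : ∀ j, ‖X n c j‖ ≤ 3 * n := by
  have hn2 : 2 ≤ n := le_trans (by norm_num) hn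
  have hn20 : 20 ≤ n := le_trans (by norm_num) hn
  have hnR : (0 : ℝ) < n := by
    have : 0 < n := by omega
    exact_mod_cast this
  have ht := Pool.Agent.H749R2.Hyp.t_le_two hn2 hcM
  have hz : ∀ j, ‖c * A n c j‖ ^ (n - 1) ≤ 2 := by
    intro j
    by_contra hcon
    push Not at hcon
    rcases le_or_gt ‖c‖ ‖c * A n c j‖ with h1 | h1
    · exact Pool.Agent.H749R2.Hyp.not_mem_of_gt hn2 (Pool.Agent.W216.MB.ALV.iter_eq n hn2 c j) h1 hcon hcM
    · have h2 : ‖c * A n c j‖ ^ (n - 1) ≤ ‖c‖ ^ (n - 1) :=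
        pow_le_pow_left₀ (norm_nonneg _) h1.le _
      linarith
  have hA : ∀ j, ‖A n c j‖ ≤ 3 / 2 := by
    intro j
    by_contra hcon
    push Not at hcon
    have h1 : (3 / 2 : ℝ) ^ (n - 1) < ‖A n c j‖ ^ (n - 1) :=
      pow_lt_pow_left₀ hcon (by norm_num) (by omega)
    have h2 := Pool.Agent.W216.MB.ALV.pow_big n hn20
    have h3 := hz j
    rw [norm_mul, mul_pow] at h3
    have h4 : (1 : ℝ) / 3 ≤ n * ‖c‖ ^ (n - 1) := hY1
    have h5 : 0 ≤ ‖A n c j‖ ^ (n - 1) := by positivity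
    have h6 : 1 / 3 * ‖A n c j‖ ^ (n - 1) ≤ n * ‖c‖ ^ (n - 1) * ‖A n c j‖ ^ (n - 1) :=
      mul_le_mul_of_nonneg_right h4 h5
    have h7 : (n : ℝ) * (‖c‖ ^ (n - 1) * ‖A n c j‖ ^ (n - 1)) ≤ n * 2 :=
      mul_le_mul_of_nonneg_left h3 hnR.le
    linarith
  intro j
  cases j with
  | zero =>
    simp [X]
  | succ j =>
    have h1 : X n c (j + 1) = n * c ^ (n - 1) * A n c j ^ n := rfl
    have h2 : ‖X n c (j + 1)‖ = n * ‖c * A n c j‖ ^ (n - 1) * ‖A n c j‖ := by
      rw [h1, norm_mul, norm_mul, norm_pow, norm_pow, Complex.norm_natCast, norm_mul, mul_pow]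
      have : ‖A n c j‖ ^ n = ‖A n c j‖ ^ (n - 1) * ‖A n c j‖ := by
        rw [← pow_succ]
        congr 1
        omega
      rw [this]
      ring
    rw [h2]
    have h3 := hz j
    have h4 := hA j
    calc (n : ℝ) * ‖c * A n c j‖ ^ (n - 1) * ‖A n c j‖ ≤ n * 2 * (3 / 2) := by gcongr
      _ = 3 * n := by ring

/-- ESC: large modulus of the rescaled orbit means escape. -/
theorem esc : Pool.Agent.N228.AZ.P_ESC := by
  intro n hn c j hY hX hcM
  have h1 := alv2 hn hcM (by linarith) (j + 1)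
  have hn0 : (0 : ℝ) ≤ n := Nat.cast_nonneg n
  linarith

theorem win_a (k : ℕ) {ε : ℝ} (hε : 0 < ε) :
    ∀ᶠ n : ℕ in atTop, E2^[k + 1] (Real.log^[k + 1] (n:ℝ) / 10) ≤ ε * n := by
  induction k with
  | zero =>
    filter_upwards [(tendsto_iterlog 1).eventually_ge_atTop (-(5 / 4) * Real.log ε),
      eventually_ge_atTop 1] with n h1 h2
    have hn0 : (0 : ℝ) < n := by exact_mod_cast h2
    simp only [zero_add, Function.iterate_one] at h1 ⊢
    have h3 : ε * n = Real.exp (Real.log ε + Real.log n) := by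
      rw [Real.exp_add, Real.exp_log hε, Real.exp_log hn0]
    rw [h3]
    unfold E2
    apply Real.exp_le_exp.2
    linarith
  | succ k ih =>
    filter_upwards [ih, (tendsto_iterlog (k + 1)).eventually_ge_atTop 100] with n h1 h2
    rw [Function.iterate_succ_apply, Function.iterate_succ_apply' Real.log]
    refine (E2_mono.iterate (k + 1) ((E2_log h2).trans ?_)).trans h1
    exact le_refl _

theorem G_mono {η : ℝ} (hη : 0 < η) : Monotone (fun R : ℝ => Real.exp (η * R / 4)) := by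
  intro a b h
  apply Real.exp_le_exp.2
  have := mul_le_mul_of_nonneg_left h hη.le
  linarith

theorem win_b (A : ℝ) (k : ℕ) : ∀ᶠ n : ℕ in atTop, ∀ η : ℝ, 0 < η → 8 ≤ η * A → 1 ≤ A →
    A * Real.log (n:ℝ) ≤ (fun R : ℝ => Real.exp (η * R / 4))^[k] (A * Real.log^[k + 1] (n:ℝ)) := by
  induction k with
  | zero =>
    refine Eventually.of_forall fun n η _ _ _ => ?_
    simp
  | succ k ih =>
    filter_upwards [ih, (tendsto_iterlog (k + 1)).eventually_ge_atTop (max A 1)]
      with n h1 h2 η hη h8 hA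
    refine (h1 η hη h8 hA).trans ?_
    rw [Function.iterate_succ_apply (fun R : ℝ => Real.exp (η * R / 4)),
      Function.iterate_succ_apply' Real.log (k + 1)]
    apply (G_mono hη).iterate k
    obtain ⟨s, hs⟩ : ∃ s, s = Real.log^[k + 1] (n:ℝ) := ⟨_, rfl⟩
    rw [← hs] at h2 ⊢
    have hs1 : 1 ≤ s := (le_max_right _ _).trans h2
    have hsA : A ≤ s := (le_max_left _ _).trans h2
    have hs0 : 0 < s := by linarith
    have hl : 0 ≤ Real.log s := Real.log_nonneg hs1
    calc A * s ≤ s * s := mul_le_mul_of_nonneg_right hsA hs0.le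
      _ = Real.exp (Real.log s + Real.log s) := by rw [Real.exp_add, Real.exp_log hs0]
      _ ≤ Real.exp (η * (A * Real.log s) / 4) := by
        apply Real.exp_le_exp.2
        nlinarith

/-- WIN: windows for the iterated exponentials. -/
theorem win : Pool.Agent.N228.AZ.P_WIN := by
  intro k ε A hε
  have hb := win_b A k
  rcases k with _ | k
  · filter_upwards [hb] with n h
    exact ⟨fun h0 => absurd h0 (by norm_num), h⟩
  · filter_upwards [hb, win_a k hε] with n h h'
    exact ⟨fun _ => h', h⟩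

end Pool.Agent.N42.AZ
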